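import Pool.Agent.Lib.P0036f5v3.Low

/-!
# The size cost of determinising 1-limited automata

`D(n)` is the maximum, over all 1-limited automata of size at most `n`, of the least size of an
equivalent deterministic 1-limited automaton.  We prove
`2 ^ ((n / 3000) ^ 2) ≤ D(n) ≤ 2 ^ (n ^ 4)` for all `n ≥ 4` (`4` is the size of the smallest
machine): the growth is `2 ^ (n ^ c)` with an exponent between `2` and `4`, more than `2 ^ (C n)`
for every constant `C`, and less than double exponential.
The Boolean `cv` chooses between the two conventions for transitions that would change the content
of a frozen cell (they can be used without effect on the tape, or they cannot be used).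

Upper bound: a 1-limited automaton with `k` states is simulated by a one-way nondeterministic
automaton with `N = k 2 ^ (k ^ 2)` states (transition tables).  A deterministic 1-limited automaton
of size `N ^ O(log N)` simulates the latter: the input is cut into blocks of length `N`; at the first
visit of the cell number `q` of a block the machine writes, besides the input letter, one bit telling
whether state `q` is reachable at the beginning of the block; this bit is computed, before the cell
is visited, from the previous block by divide and conquer, in the finite control.

Lower bound: the input is a sequence of blocks followed by a sequence of tests.  A block is a list of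
pairs `(j, k)` written `b ^ k a ^ j` (`j ≤ m`, `k ≤ 2 m`), a test is a pair written `x ^ j y ^ k`.
The machine keeps the letters of one block and writes blanks on all other cells.  At the first `y` of
a test it walks left with `j` in its state, chooses in the kept block a pair beginning with `j`,
reads its `k` and walks back to compare.  So it accepts if and only if one of the blocks contains
all tests.  It has `O(m)` states, and at least `2 ^ (2 ^ (m ^ 2))` residuals: the sets of pairs that
contain exactly one of `(j, k)`, `(j, k + m)` for all `j, k ≤ m` are not comparable.  A deterministic
1-limited automaton with `K` states has at most `K 2 ^ (K ^ 2) + 1` residuals.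
-/

set_option autoImplicit false

namespace Pool.Agent.Results.MP_0036f5_lc.GrowthExponent

open Pool.Agent.P0036f5v2

/-- For every `n ≥ 4` the maximum `D(n)` exists and
`2 ^ ((n / 3000) ^ 2) ≤ D(n) ≤ 2 ^ (n ^ 4)`. -/
theorem result (cv : Bool) (n : ℕ) (hn : 4 ≤ n) :
    ∃ d, IsGreatest (costs cv n) d ∧ 2 ^ ((n / 3000) ^ 2) ≤ d ∧ d ≤ 2 ^ (n ^ 4) :=
  P0036f5v3.main cv n hn

end Pool.Agent.Results.MP_0036f5_lc.GrowthExponent
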